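import Pool.Agent.Work.MP_db9399_mad_helper75.Final

/-!
For every `γ > 0` there are `ε > 0` and `d₀` with the following property. Let `G` be a finite graph
with maximum degree `Δ ≥ d₀` and `n` vertices such that one of the following holds.

(A) The maximum average degree of `G` is at most `(1 - γ) Δ`: for every vertex set `S` there are at
most `(1 - γ) Δ |S|` ordered pairs of adjacent vertices of `S`.

(B) `n ≥ (2 + γ) Δ`, all degrees are at least `(1 - ε) Δ`, and there are at most `(1 - γ) Δ |A|`
ordered pairs `(a, b)` of adjacent vertices with `a ∈ A` and `b ∈ B` if `|B| ≤ |A| ≤ n / 2`.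

Then for every `k ≥ Δ + 2` every total-`k`-colouring of every distance-3 matching of `G` extends
to a total-`k`-colouring of `G`.
-/

namespace Pool.Agent.Work.MP_db9399_mad_old.AverageDegree

open _root_.MP_db9399_co

universe u

/-- Q1 for graphs of large maximum degree `Δ` with maximum average degree at most `(1 - γ) Δ`, and
for nearly regular expanders with at least `(2 + γ) Δ` vertices. -/
theorem result : ∀ γ : ℝ, 0 < γ → ∃ (ε : ℝ) (d₀ : ℕ), 0 < ε ∧ ∀ (V : Type u) [Fintype V]
    (G : SimpleGraph V) [DecidableRel G.Adj] (k : ℕ), d₀ ≤ G.maxDegree → G.maxDegree + 2 ≤ k →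
      ((∀ S : Finset V, ((G.interedges S S).card : ℝ) ≤ (1 - γ) * G.maxDegree * S.card) ∨
        ((2 + γ) * G.maxDegree ≤ (Fintype.card V : ℝ) ∧
          (∀ v, (1 - ε) * G.maxDegree ≤ (G.degree v : ℝ)) ∧
          ∀ A B : Finset V, B.card ≤ A.card → 2 * A.card ≤ Fintype.card V →
            ((G.interedges A B).card : ℝ) ≤ (1 - γ) * G.maxDegree * A.card)) →
      ∀ H : G.Subgraph, IsDistThreeMatching H → EveryTotalColoringExtends H (Fin k) := by
  intro γ hγ
  obtain ⟨ε, d₀, hε, h⟩ := Pool.Agent.Work.MP_db9399_exp.stmt_MAIN.{u} γ hγ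
  obtain ⟨d₁, h'⟩ := Pool.Agent.Work.MP_db9399_mad.helper75.stmt_MAD.{u} γ hγ
  refine ⟨ε, max d₀ d₁, hε, ?_⟩
  intro V _ G _ k h0 hk hm H hH
  rcases hm with hm | ⟨h3, hd, hm⟩
  · exact h' V G G.maxDegree k ((le_max_right _ _).trans h0) hk
      (fun v => G.degree_le_maxDegree v) hm H hH
  · exact h V G G.maxDegree k ((le_max_left _ _).trans h0) h3 hk
      (fun v => ⟨G.degree_le_maxDegree v, hd v⟩) hm H hH

end Pool.Agent.Work.MP_db9399_mad_old.AverageDegree
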