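import Pool.Agent.Work.MP_db9399_lhts_helper35.LCHT
import Pool.Agent.Work.MP_db9399_lh_helper35.Core
import Pool.Agent.Work.MP_db9399_dn.CORE
import Pool.Agent.Work.MP_db9399_nc_helper21.COMP
import Pool.Agent.Work.MP_db9399_nc_helper21.PM
import Pool.Agent.Work.MP_db9399_nc_helper46.SPB
import Pool.Agent.Work.MP_db9399_nc_helper46.SPOT
import Pool.Agent.Work.MP_db9399_nc_helper51.SP0
import Pool.Agent.Work.MP_db9399_nc_helper63.CLEAN
import Pool.Agent.Work.MP_db9399_nc_helper63.STAR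
import Pool.Agent.Work.MP_db9399_nc_helper99.ABSA
import Pool.Agent.Work.MP_db9399_nc_helper99.NE

/-! THEOREM LCHT without hypotheses: LCH (lh blocks) + tight spots (ts_helper46, nc blocks). -/

namespace Pool.Agent.Work.MP_db9399_lhts.helper35

open Pool.Agent.Work.MP_db9399_nc

universe u

theorem clean : Stmt_CLEAN.{u} :=
  MP_db9399_nc.helper63.stmt_CLEAN Pool.Agent.Work.MP_db9399_dn.CORE.stmt_CORE
    MP_db9399_nc.helper63.stmt_STAR

theorem spot : Stmt_SPOT.{u} :=
  MP_db9399_nc.helper46.stmt_SPOT (MP_db9399_nc.helper21.stmt_COMP MP_db9399_nc.helper21.stmt_PM)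
    clean

theorem lcht_holds : Stmt_LCHT.{u} :=
  lcht MP_db9399_lh.helper35.nrm MP_db9399_lc.helper85.stmt_EMBB
    (MP_db9399_nc.helper46.stmt_SPA MP_db9399_nc.helper99.stmt_ABSA spot)
    (MP_db9399_nc.helper51.stmt_SP0 clean) MP_db9399_nc.helper99.stmt_NE

end Pool.Agent.Work.MP_db9399_lhts.helper35
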